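import Mathlib

/-!
# A countably infinite FC group which is DTC(1)

`G` is the restricted direct sum of the finite groups `Perm (ZMod (4 ^ (n+1) - 1))`.
-/

namespace Pool.Agent.Results.MP_1a7a11_al.FCNotTwo

open Filter

section Defs

variable {G : Type*} [Group G]

/-- The family of sets `u □ v = {A : {x : x⁻¹ A ∈ v} ∈ u}`. -/
def box (u v : Ultrafilter G) : Set (Set G) :=
  {A | {x : G | (fun a => x⁻¹ * a) '' A ∈ v} ∈ u}

/-- The family of sets `u ◇ v = {A : {x : A x⁻¹ ∈ u} ∈ v}`. -/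
def diamond (u v : Ultrafilter G) : Set (Set G) :=
  {A | {x : G | (fun a => a * x⁻¹) '' A ∈ u} ∈ v}

/-- `D` is a DTC set: for every nonprincipal `u` some `v ∈ D` has `u □ v ≠ u ◇ v`. -/
def IsDTCSet (D : Set (Ultrafilter G)) : Prop :=
  ∀ u : Ultrafilter G, (∀ x : G, u ≠ pure x) → ∃ v ∈ D, box u v ≠ diamond u v

end Defs

/-- `G` is DTC(κ): `κ` is the least cardinality of a DTC set. -/
def IsDTC (G : Type*) [Group G] (κ : Cardinal) : Prop :=
  IsLeast {c : Cardinal | ∃ D : Set (Ultrafilter G), IsDTCSet D ∧ Cardinal.mk D = c} κ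

/-- `G` is an FC group: every conjugacy class is finite. -/
def IsFC (G : Type*) [Group G] : Prop := ∀ g : G, {h : G | IsConj g h}.Finite

section Restricted

variable (F : ℕ → Type) [∀ n, Group (F n)]

/-- Restricted direct product of the groups `F n`. -/
def FinSupp : Subgroup (∀ n, F n) where
  carrier := {g | ∃ N, ∀ n, N ≤ n → g n = 1}
  mul_mem' := by
    rintro a b ⟨N, hN⟩ ⟨M, hM⟩
    refine ⟨max N M, fun n hn => ?_⟩
    rw [Pi.mul_apply, hN n (le_trans (le_max_left _ _) hn), hM n (le_trans (le_max_right _ _) hn),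
      one_mul]
  one_mem' := ⟨0, fun n _ => rfl⟩
  inv_mem' := by
    rintro a ⟨N, hN⟩
    exact ⟨N, fun n hn => by rw [Pi.inv_apply, hN n hn, inv_one]⟩

variable {F}

/-- The test elements: `f i` below `n`, `e n` at `n`, `1` above `n`. -/
def yy (f e : ∀ n, F n) (n : ℕ) : FinSupp F :=
  ⟨fun i => if i < n then f i else if i = n then e i else 1, n + 1, fun i hi => by
    show (if i < n then f i else if i = n then e i else 1) = 1
    rw [if_neg (by omega), if_neg (by omega)]⟩

variable {f e : ∀ n, F n}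

lemma mul_yy_lt (x : FinSupp F) {i n : ℕ} (h : i < n) : (x * yy f e n).1 i = x.1 i * f i := by
  show x.1 i * (if i < n then f i else if i = n then e i else 1) = _
  rw [if_pos h]

lemma mul_yy_eq (x : FinSupp F) (n : ℕ) : (x * yy f e n).1 n = x.1 n * e n := by
  show x.1 n * (if n < n then f n else if n = n then e n else 1) = _
  rw [if_neg (lt_irrefl _), if_pos rfl]

lemma mul_yy_gt (x : FinSupp F) {i n : ℕ} (h : n < i) : (x * yy f e n).1 i = x.1 i := by
  show x.1 i * (if i < n then f i else if i = n then e i else 1) = _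
  rw [if_neg (by omega), if_neg (by omega), mul_one]

/-- The set of coordinates of `g` lying in `E`. -/
def ES (E : ∀ n, Set (F n)) (g : FinSupp F) : Set ℕ := {i | g.1 i ∈ E i}

lemma ES_finite {E : ∀ n, Set (F n)} (h1 : ∀ n, (1 : F n) ∉ E n) (g : FinSupp F) :
    (ES E g).Finite := by
  obtain ⟨N, hN⟩ := g.2
  refine (Set.finite_lt_nat N).subset fun i hi => ?_
  by_contra hc
  have : N ≤ i := not_lt.mp hc
  have h2 : g.1 i ∈ E i := hi
  rw [hN i this] at h2
  exact h1 i h2

lemma finite_small [∀ n, Finite (F n)] (N : ℕ) : {g : FinSupp F | ∀ i, N ≤ i → g.1 i = 1}.Finite := by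
  let r : FinSupp F → (∀ i : Fin N, F i) := fun g i => g.1 i
  have hinj : Set.InjOn r {g : FinSupp F | ∀ i, N ≤ i → g.1 i = 1} := by
    intro a ha b hb hab
    apply Subtype.ext
    funext i
    rcases lt_or_ge i N with hi | hi
    · exact congrFun hab ⟨i, hi⟩
    · rw [ha i hi, hb i hi]
  exact Set.Finite.of_finite_image (Set.toFinite _) hinj

end Restricted

section Key

variable {F : ℕ → Type} [∀ n, Group (F n)]
variable {f e : ∀ n, F n} {q : Ultrafilter ℕ} {u : Ultrafilter (FinSupp F)}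

/-- A parity trick: incompatible statistics. -/
lemma parity_trick
    (H : ∀ P : FinSupp F → Prop, (∀ᶠ x in u, ∀ᶠ n in q, P (x * yy f e n)) →
      (∀ᶠ n in q, ∀ᶠ x in u, P (x * yy f e n)))
    (P Q : FinSupp F → Prop)
    (h1 : ∀ᶠ x in u, ∀ᶠ n in q, (P (x * yy f e n) ↔ ¬ Q x))
    (h2 : ∀ᶠ n in q, ∀ᶠ x in u, (P (x * yy f e n) ↔ Q x)) : False := by
  have key : ∀ᶠ n in (q : Filter ℕ), False := by
    rcases u.em Q with hQ | hQ
    · have h3 := H (fun g => ¬ P g) (by
        filter_upwards [h1, hQ] with x hx hx'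
        filter_upwards [hx] with n hn
        rw [hn]; exact fun h => h hx')
      filter_upwards [h2, h3] with n hn hn'
      have : ∀ᶠ x in (u : Filter (FinSupp F)), False := by
        filter_upwards [hn, hn', hQ] with x a b c
        exact b (a.mpr c)
      exact this.exists.choose_spec
    · have h3 := H P (by
        filter_upwards [h1, hQ] with x hx hx'
        filter_upwards [hx] with n hn
        rw [hn]; exact hx')
      filter_upwards [h2, h3] with n hn hn'
      have : ∀ᶠ x in (u : Filter (FinSupp F)), False := by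
        filter_upwards [hn, hn', hQ] with x a b c
        exact c (a.mp b)
      exact this.exists.choose_spec
  exact key.exists.choose_spec

/-- For fixed `x`, eventually in `n` everything of `x` is below `n`. -/
lemma eventually_one (hq : (q : Filter ℕ) ≤ atTop) (x : FinSupp F) :
    ∀ᶠ n in q, ∀ i, n ≤ i → x.1 i = 1 := by
  obtain ⟨N, hN⟩ := x.2
  have : ∀ᶠ n in (q : Filter ℕ), N ≤ n := hq (eventually_ge_atTop N)
  filter_upwards [this] with n hn i hi
  exact hN i (hn.trans hi)

lemma ES_mul_yy_insert {E : ∀ n, Set (F n)} (hE : ∀ n g, g * f n ∈ E n ↔ g ∈ E n)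
    (h1 : ∀ n, (1 : F n) ∉ E n) (he : ∀ n, e n ∈ E n) (x : FinSupp F) (n : ℕ) (hx : x.1 n = 1) :
    ES E (x * yy f e n) = insert n (ES E x) ∧ n ∉ ES E x := by
  refine ⟨?_, ?_⟩
  · ext i
    rcases lt_trichotomy i n with hi | hi | hi
    · simp only [ES, Set.mem_insert_iff]
      show (x * yy f e n).1 i ∈ E i ↔ i = n ∨ x.1 i ∈ E i
      rw [mul_yy_lt x hi, hE]
      exact ⟨Or.inr, fun h => h.resolve_left hi.ne⟩
    · subst hi
      show (x * yy f e i).1 i ∈ E i ↔ i ∈ insert i (ES E x)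
      rw [mul_yy_eq, hx, one_mul]
      exact ⟨fun _ => Set.mem_insert _ _, fun _ => he i⟩
    · show (x * yy f e n).1 i ∈ E i ↔ i ∈ insert n (ES E x)
      rw [mul_yy_gt x hi]
      exact ⟨fun h => Set.mem_insert_of_mem _ h, fun h => (Set.mem_insert_iff.mp h).resolve_left hi.ne'⟩
  · intro h
    have h2 : x.1 n ∈ E n := h
    rw [hx] at h2
    exact h1 n h2

lemma ES_mul_yy_same {E : ∀ n, Set (F n)} (hE : ∀ n g, g * f n ∈ E n ↔ g ∈ E n)
    (x : FinSupp F) (n : ℕ) (hx : x.1 n ∈ E n ↔ x.1 n * e n ∈ E n) :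
    ES E (x * yy f e n) = ES E x := by
  ext i
  rcases lt_trichotomy i n with hi | hi | hi
  · show (x * yy f e n).1 i ∈ E i ↔ x.1 i ∈ E i
    rw [mul_yy_lt x hi, hE]
  · subst hi
    show (x * yy f e i).1 i ∈ E i ↔ x.1 i ∈ E i
    rw [mul_yy_eq, hx]
  · show (x * yy f e n).1 i ∈ E i ↔ x.1 i ∈ E i
    rw [mul_yy_gt x hi]

/-- u-limits of coordinates exist. -/
lemma exists_limit [∀ n, Finite (F n)] (u : Ultrafilter (FinSupp F)) (i : ℕ) :
    ∃ ξ : F i, ∀ᶠ x : FinSupp F in u, x.1 i = ξ := by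
  have h := (Ultrafilter.eventually_exists_iff (f := u)
    (P := fun (ξ : F i) (x : FinSupp F) => x.1 i = ξ)).mp
    (Eventually.of_forall fun x => ⟨x.1 i, rfl⟩)
  exact h

/-- First step: exactly one of `ξ n ∈ E n`, `ξ n * e n ∈ E n` holds. -/
lemma step1
    (H : ∀ P : FinSupp F → Prop, (∀ᶠ x in u, ∀ᶠ n in q, P (x * yy f e n)) →
      (∀ᶠ n in q, ∀ᶠ x in u, P (x * yy f e n)))
    (hq : (q : Filter ℕ) ≤ atTop)
    {E : ∀ n, Set (F n)} (hE : ∀ n g, g * f n ∈ E n ↔ g ∈ E n)
    (h1 : ∀ n, (1 : F n) ∉ E n) (he : ∀ n, e n ∈ E n)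
    {ξ : ∀ i, F i} (hξ : ∀ i, ∀ᶠ x : FinSupp F in u, x.1 i = ξ i) :
    ∀ᶠ n in q, ¬ (ξ n ∈ E n ↔ ξ n * e n ∈ E n) := by
  rw [Ultrafilter.eventually_not]
  intro hcon
  refine parity_trick H (fun g => Even (ES E g).ncard) (fun g => Even (ES E g).ncard) ?_ ?_
  · refine Eventually.of_forall fun x => ?_
    filter_upwards [eventually_one hq x] with n hn
    obtain ⟨ha, hb⟩ := ES_mul_yy_insert hE h1 he x n (hn n le_rfl)
    rw [ha, Set.ncard_insert_of_notMem hb (ES_finite h1 x), Nat.even_add_one]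
  · filter_upwards [hcon] with n hn
    filter_upwards [hξ n] with x hx
    rw [ES_mul_yy_same hE x n (by rw [hx]; exact hn)]

/-- The counting function of coordinates in `E` above `i`. -/
noncomputable def rho (E : ∀ n, Set (F n)) (g : FinSupp F) (i : ℕ) : ℕ := (ES E g ∩ {j | i < j}).ncard

lemma rho_mul_lt {E : ∀ n, Set (F n)} (hE : ∀ n g, g * f n ∈ E n ↔ g ∈ E n)
    (h1 : ∀ n, (1 : F n) ∉ E n) (he : ∀ n, e n ∈ E n) (x : FinSupp F) (n : ℕ) (hx : x.1 n = 1)
    {i : ℕ} (hi : i < n) : rho E (x * yy f e n) i = rho E x i + 1 := by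
  obtain ⟨ha, hb⟩ := ES_mul_yy_insert hE h1 he x n hx
  unfold rho
  rw [ha, Set.insert_inter_of_mem (show n ∈ {j | i < j} from hi),
    Set.ncard_insert_of_notMem (fun h => hb h.1) ((ES_finite h1 x).subset Set.inter_subset_left)]

lemma rho_mul_ge {E : ∀ n, Set (F n)} (hE : ∀ n g, g * f n ∈ E n ↔ g ∈ E n)
    (h1 : ∀ n, (1 : F n) ∉ E n) (he : ∀ n, e n ∈ E n) (x : FinSupp F) (n : ℕ) (hx : x.1 n = 1)
    {i : ℕ} (hi : n ≤ i) : rho E (x * yy f e n) i = rho E x i := by
  obtain ⟨ha, hb⟩ := ES_mul_yy_insert hE h1 he x n hx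
  unfold rho
  rw [ha, Set.insert_inter_of_notMem (show n ∉ {j | i < j} from not_lt.mpr hi)]

lemma rho_anti {E : ∀ n, Set (F n)} (h1 : ∀ n, (1 : F n) ∉ E n) (x : FinSupp F) {i j : ℕ}
    (h : i ≤ j) : rho E x j ≤ rho E x i :=
  Set.ncard_le_ncard (fun _ hk => ⟨hk.1, lt_of_le_of_lt h hk.2⟩)
    ((ES_finite h1 x).subset Set.inter_subset_left)

lemma rho_le {E : ∀ n, Set (F n)} (h1 : ∀ n, (1 : F n) ∉ E n) (x : FinSupp F) (i : ℕ) :
    rho E x i ≤ (ES E x).ncard :=
  Set.ncard_le_ncard Set.inter_subset_left (ES_finite h1 x)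

/-- The key contradiction. -/
theorem key [∀ n, Finite (F n)]
    (H : ∀ P : FinSupp F → Prop, (∀ᶠ x in u, ∀ᶠ n in q, P (x * yy f e n)) →
      (∀ᶠ n in q, ∀ᶠ x in u, P (x * yy f e n)))
    (hq : (q : Filter ℕ) ≤ atTop) (hu : ∀ x, u ≠ pure x)
    (C : ∀ n, Subgroup (F n)) (hf : ∀ n, f n ∈ C n)
    (R1 : ∀ n, ∀ c ∈ C n, (e n)⁻¹ * c * e n ∈ C n → c = 1)
    (R2 : ∀ n, ∀ c ∈ C n, e n * c * e n ∉ C n)
    (R3 : ∀ k, 1 ≤ k → ∀ᶠ n in atTop, f n ^ k ≠ 1) : False := by
  have heC : ∀ n, e n ∉ C n := by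
    intro n h
    have := R2 n _ (inv_mem h)
    rw [mul_inv_cancel, one_mul] at this
    exact this h
  choose ξ hξ using fun i => exists_limit u i
  -- the two families of sets
  let E : ∀ n, Set (F n) := fun n => {g | g ∉ C n}
  have hE : ∀ n g, g * f n ∈ E n ↔ g ∈ E n := by
    intro n g
    exact not_congr (mul_mem_cancel_right (hf n))
  have h1 : ∀ n, (1 : F n) ∉ E n := fun n h => h (one_mem _)
  have he : ∀ n, e n ∈ E n := heC
  let E' : ∀ n, Set (F n) := fun n => {g | (e n)⁻¹ * g ∈ C n}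
  have hE' : ∀ n g, g * f n ∈ E' n ↔ g ∈ E' n := by
    intro n g
    show (e n)⁻¹ * (g * f n) ∈ C n ↔ (e n)⁻¹ * g ∈ C n
    rw [← mul_assoc]
    exact mul_mem_cancel_right (hf n)
  have h1' : ∀ n, (1 : F n) ∉ E' n := by
    intro n h
    have h2 : (e n)⁻¹ * 1 ∈ C n := h
    rw [mul_one] at h2
    exact heC n (inv_mem_iff.mp h2)
  have he' : ∀ n, e n ∈ E' n := by
    intro n
    show (e n)⁻¹ * e n ∈ C n
    rw [inv_mul_cancel]
    exact one_mem _
  have hξ1 : ∀ᶠ n in (q : Filter ℕ), ξ n = 1 := by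
    filter_upwards [step1 H hq hE h1 he hξ, step1 H hq hE' h1' he' hξ] with n ha hb
    have ha' : ¬ (ξ n ∉ C n ↔ ξ n * e n ∉ C n) := ha
    have hb' : ¬ ((e n)⁻¹ * ξ n ∈ C n ↔ (e n)⁻¹ * (ξ n * e n) ∈ C n) := hb
    by_cases hc : ξ n ∈ C n
    · have h2 : (e n)⁻¹ * ξ n ∉ C n := fun h => heC n (inv_mem_iff.mp
        ((mul_mem_cancel_right hc).mp h))
      have h3 : (e n)⁻¹ * (ξ n * e n) ∈ C n := by
        by_contra h
        exact hb' ⟨fun h' => absurd h' h2, fun h' => absurd h' h⟩
      rw [← mul_assoc] at h3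
      exact R1 n _ hc h3
    · have h2 : ξ n * e n ∈ C n := by
        by_contra h
        exact ha' ⟨fun _ => h, fun _ => hc⟩
      exfalso
      have h3 : (e n)⁻¹ * (ξ n * e n) ∉ C n := fun h => heC n (inv_mem_iff.mp
        ((mul_mem_cancel_right h2).mp h))
      have h4 : (e n)⁻¹ * ξ n ∈ C n := by
        by_contra h
        exact hb' ⟨fun h' => absurd h' h, fun h' => absurd h' h3⟩
      have h5 := mul_mem h2 (inv_mem h4)
      have h6 : ξ n * e n * ((e n)⁻¹ * ξ n)⁻¹ = (ξ n * e n) * (ξ n)⁻¹ * e n := by group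
      have h7 := R2 n ((ξ n * e n)⁻¹) (inv_mem h2)
      have h8 : e n * (ξ n * e n)⁻¹ * e n = ((e n)⁻¹ * ξ n)⁻¹ := by
        rw [mul_inv_rev, mul_inv_rev, inv_inv, mul_inv_cancel_left]
      rw [h8] at h7
      exact h7 (inv_mem h4)
  let M : FinSupp F → ℕ := fun x => (ES E x).ncard
  by_cases hM : ∀ K, ∀ᶠ x in (u : Filter (FinSupp F)), K ≤ M x
  · -- the case where the number of `E`-coordinates tends to infinity
    refine parity_trick H (fun g => Even ({i | i < M g} ∩ ES E g).ncard)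
      (fun x => ¬ Even ({i | i < M x + 1} ∩ ES E x).ncard) ?_ ?_
    · refine Eventually.of_forall fun x => ?_
      have h3 : ∀ᶠ n in (q : Filter ℕ), M x + 1 ≤ n := hq (eventually_ge_atTop _)
      filter_upwards [eventually_one hq x, h3] with n hn hn'
      obtain ⟨ha, hb⟩ := ES_mul_yy_insert hE h1 he x n (hn n le_rfl)
      have hc : M (x * yy f e n) = M x + 1 := by
        show (ES E (x * yy f e n)).ncard = (ES E x).ncard + 1
        rw [ha, Set.ncard_insert_of_notMem hb (ES_finite h1 x)]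
      rw [hc, ha, Set.inter_insert_of_notMem (show n ∉ {i | i < M x + 1} from not_lt.mpr hn'),
        not_not]
    · filter_upwards [hξ1] with n hn
      filter_upwards [hξ n, hM n] with x hx hx'
      rw [hn] at hx
      obtain ⟨ha, hb⟩ := ES_mul_yy_insert hE h1 he x n hx
      have hc : M (x * yy f e n) = M x + 1 := by
        show (ES E (x * yy f e n)).ncard = (ES E x).ncard + 1
        rw [ha, Set.ncard_insert_of_notMem hb (ES_finite h1 x)]
      rw [hc, ha, Set.inter_insert_of_mem (show n ∈ {i | i < M x + 1} from Nat.lt_succ_of_le hx'),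
        Set.ncard_insert_of_notMem (fun h => hb h.2)
          ((ES_finite h1 x).subset Set.inter_subset_right), Nat.even_add_one]
  · -- the bounded case
    obtain ⟨K, hK⟩ := not_forall.mp hM
    have hK' : ∀ᶠ x in (u : Filter (FinSupp F)), M x < K := by
      have := Ultrafilter.eventually_not.mpr hK
      filter_upwards [this] with x hx
      exact not_le.mp hx
    have hk : ∀ n, ∃ k, ∀ᶠ x in (u : Filter (FinSupp F)), rho E x n = k := by
      intro n
      have := (Ultrafilter.eventually_exists_mem_iff (f := u) (is := {k : ℕ | k < K})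
        (P := fun k (x : FinSupp F) => rho E x n = k) (Set.finite_lt_nat K)).mp (by
          filter_upwards [hK'] with x hx
          exact ⟨_, lt_of_le_of_lt (rho_le h1 x n) hx, rfl⟩)
      obtain ⟨k, _, hk⟩ := this
      exact ⟨k, hk⟩
    choose kk hkk using hk
    have hanti : Antitone kk := by
      intro a b hab
      obtain ⟨x, hx⟩ := ((hkk a).and (hkk b)).exists
      rw [← hx.1, ← hx.2]
      exact rho_anti h1 x hab
    obtain ⟨k, hk⟩ : ∃ k, ∀ᶠ n in atTop, kk n = k := by
      obtain ⟨n0, hn0⟩ : ∃ n0, ∀ n, kk n0 ≤ kk n := by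
        obtain ⟨n0, hn0⟩ := Nat.sInf_mem (Set.range_nonempty kk)
        exact ⟨n0, fun n => by rw [hn0]; exact Nat.sInf_le ⟨n, rfl⟩⟩
      exact ⟨kk n0, eventually_atTop.mpr ⟨n0, fun n hn => le_antisymm (hanti hn) (hn0 n)⟩⟩
    have hmain : ∀ᶠ n in (q : Filter ℕ), ∀ᶠ x : FinSupp F in (u : Filter (FinSupp F)),
        x.1 n = 1 ∧ rho E x n = k := by
      filter_upwards [hξ1, hq hk] with n ha hb
      have hb' : kk n = k := hb
      filter_upwards [hξ n, hkk n] with x hx hx'
      exact ⟨hx.trans ha, hx'.trans hb'⟩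
    have hk1 : 1 ≤ k := by
      by_contra hk0
      have hk0' : k = 0 := by omega
      subst hk0'
      have hB := H (fun g => ∃ i, g.1 i ∈ E i ∧ ∀ j, i < j → g.1 j = 1) (by
        refine Eventually.of_forall fun x => ?_
        filter_upwards [eventually_one hq x] with n hn
        refine ⟨n, ?_, fun j hj => ?_⟩
        · rw [mul_yy_eq, hn n le_rfl, one_mul]; exact he n
        · rw [mul_yy_gt x hj]; exact hn j hj.le)
      obtain ⟨n, hn1, hn2⟩ := (hmain.and hB).exists
      have hfin : {g : FinSupp F | ∀ i, n ≤ i → g.1 i = 1} ∈ u := by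
        have : ∀ᶠ g : FinSupp F in (u : Filter (FinSupp F)), ∀ i, n ≤ i → g.1 i = 1 := by
          filter_upwards [hn1, hn2] with x hx hx'
          obtain ⟨i, hi, hij⟩ := hx'
          have hin : i ≤ n := by
            by_contra hc
            have hni : n < i := not_le.mp hc
            have h3 : i ∈ ES E x ∩ {j | n < j} := by
              refine ⟨?_, hni⟩
              show x.1 i ∈ E i
              rw [← mul_yy_gt (f := f) (e := e) x hni]; exact hi
            have h4 := (Set.ncard_eq_zero ((ES_finite h1 x).subset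
              Set.inter_subset_left)).mp hx.2
            rw [h4] at h3
            exact h3
          intro j hj
          rcases hj.lt_or_eq with h | h
          · rw [← mul_yy_gt (f := f) (e := e) x h]
            exact hij j (lt_of_le_of_lt hin h)
          · rw [← h]; exact hx.1
        exact this
      obtain ⟨x, _, hx⟩ := Ultrafilter.eq_pure_of_finite_mem (finite_small n) hfin
      exact hu x hx
    let A : ℕ → FinSupp F → Prop := fun j g =>
      ∀ i, g.1 i ∈ E i → rho E g i = j → g.1 i = e i * f i ^ j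
    have hA : ∀ j, j ≤ k → ∀ᶠ x in (u : Filter (FinSupp F)), ∀ᶠ n in (q : Filter ℕ),
        A j (x * yy f e n) := by
      intro j
      induction j with
      | zero =>
        intro _
        refine Eventually.of_forall fun x => ?_
        filter_upwards [eventually_one hq x] with n hn i hi hr
        rcases lt_trichotomy i n with h | h | h
        · rw [rho_mul_lt hE h1 he x n (hn n le_rfl) h] at hr
          omega
        · subst h
          rw [mul_yy_eq, hn i le_rfl, one_mul, pow_zero, mul_one]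
        · rw [mul_yy_gt x h, hn i h.le] at hi
          exact absurd hi (h1 i)
      | succ j ih =>
        intro hj
        have h3 := H (A j) (ih (by omega))
        obtain ⟨n, hn1, hn2⟩ := (hmain.and h3).exists
        have h4 : ∀ᶠ x : FinSupp F in (u : Filter (FinSupp F)),
            ∀ i, x.1 i ∈ E i → rho E x i = j → x.1 i = e i * f i ^ j := by
          filter_upwards [hn1, hn2] with x hx hx' i hi hr
          have hni : n < i := by
            by_contra hc
            rcases (not_lt.mp hc).lt_or_eq with h | h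
            · have := rho_anti h1 x h.le
              rw [hx.2, hr] at this
              omega
            · subst h
              rw [hx.1] at hi
              exact h1 i hi
          have h5 := hx' i (by rw [mul_yy_gt x hni]; exact hi)
            (by rw [rho_mul_ge hE h1 he x n hx.1 hni.le]; exact hr)
          rw [mul_yy_gt x hni] at h5
          exact h5
        filter_upwards [h4] with x hx
        filter_upwards [eventually_one hq x] with n hn i hi hr
        rcases lt_trichotomy i n with h | h | h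
        · rw [rho_mul_lt hE h1 he x n (hn n le_rfl) h] at hr
          rw [mul_yy_lt x h] at hi ⊢
          rw [hx i ((hE i _).mp hi) (by omega), pow_succ, mul_assoc]
        · subst h
          rw [rho_mul_ge hE h1 he x i (hn i le_rfl) le_rfl] at hr
          have h6 : rho E x i = 0 := by
            unfold rho
            rw [Set.ncard_eq_zero ((ES_finite h1 x).subset Set.inter_subset_left)]
            ext m
            constructor
            · rintro ⟨hm1, hm2⟩
              have hm3 : x.1 m ∈ E m := hm1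
              rw [hn m (le_of_lt hm2)] at hm3
              exact (h1 m hm3).elim
            · intro hm; exact hm.elim
          omega
        · rw [mul_yy_gt x h, hn i h.le] at hi
          exact absurd hi (h1 i)
    have h3 := H (A k) (hA k le_rfl)
    obtain ⟨n, ⟨hn1, hn2⟩, hn3⟩ := ((hmain.and h3).and (hq (R3 k hk1))).exists
    obtain ⟨x, hx, hx'⟩ := (hn1.and hn2).exists
    have h5 := hx' n (by rw [mul_yy_eq, hx.1, one_mul]; exact he n)
      (by rw [rho_mul_ge hE h1 he x n hx.1 le_rfl]; exact hx.2)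
    rw [mul_yy_eq, hx.1, one_mul] at h5
    exact hn3 (mul_left_cancel (a := e n) (by rw [← h5, mul_one]))

end Key

section Concrete

/-- The modulus `4 ^ (n+1) - 1`. -/
def md (n : ℕ) : ℕ := 4 ^ (n + 1) - 1

lemma md_add_one (n : ℕ) : md n + 1 = 4 ^ (n + 1) :=
  Nat.sub_add_cancel (Nat.one_le_pow _ _ (by norm_num))

instance (n : ℕ) : NeZero (md n) := ⟨by
  have h := md_add_one n
  have h2 : 4 ≤ 4 ^ (n + 1) := by
    calc 4 = 4 ^ 1 := by norm_num
      _ ≤ 4 ^ (n + 1) := Nat.pow_le_pow_right (by norm_num) (by omega)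
  omega⟩

lemma three_dvd_md (n : ℕ) : 3 ∣ md n := by
  have := Nat.sub_dvd_pow_sub_pow 4 1 (n + 1)
  simpa [md] using this

/-- Reduction mod 3. -/
def red (n : ℕ) : ZMod (md n) →+* ZMod 3 := ZMod.castHom (three_dvd_md n) (ZMod 3)

lemma four_unit (n : ℕ) : (4 : ZMod (md n)) * 4 ^ n = 1 := by
  have h : ((md n + 1 : ℕ) : ZMod (md n)) = 1 := by
    rw [Nat.cast_add, ZMod.natCast_self, zero_add, Nat.cast_one]
  rw [md_add_one, Nat.cast_pow] at h
  rw [← pow_succ']
  exact_mod_cast h

/-- The finite groups. -/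
abbrev Fn (n : ℕ) : Type := Equiv.Perm (ZMod (md n))

/-- Multiplication by `4`. -/
def ff (n : ℕ) : Fn n where
  toFun x := 4 * x
  invFun x := 4 ^ n * x
  left_inv x := by
    show 4 ^ n * (4 * x) = x
    rw [← mul_assoc, mul_comm (4 ^ n) (4 : ZMod (md n)), four_unit, one_mul]
  right_inv x := by
    show 4 * (4 ^ n * x) = x
    rw [← mul_assoc, four_unit, one_mul]

/-- Addition of `1`. -/
def ee (n : ℕ) : Fn n := Equiv.addRight 1

/-- Permutations commuting with multiplications and preserving classes mod 3. -/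
def CC (n : ℕ) : Subgroup (Fn n) where
  carrier := {σ | (∀ x y, σ (x * y) = σ x * y) ∧ ∀ x, red n (σ x) = red n x}
  mul_mem' := by
    rintro a b ⟨ha, ha'⟩ ⟨hb, hb'⟩
    refine ⟨fun x y => ?_, fun x => ?_⟩
    · rw [Equiv.Perm.mul_apply, Equiv.Perm.mul_apply, hb, ha]
    · rw [Equiv.Perm.mul_apply, ha', hb']
  one_mem' := ⟨fun _ _ => rfl, fun _ => rfl⟩
  inv_mem' := by
    rintro a ⟨ha, ha'⟩
    refine ⟨fun x y => ?_, fun x => ?_⟩
    · rw [Equiv.Perm.inv_eq_iff_eq, ha, ← Equiv.Perm.mul_apply, mul_inv_cancel,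
        Equiv.Perm.one_apply]
    · rw [← ha' (a⁻¹ x), ← Equiv.Perm.mul_apply, mul_inv_cancel, Equiv.Perm.one_apply]

lemma CC_zero {n : ℕ} {σ : Fn n} (h : σ ∈ CC n) : σ 0 = 0 := by
  have := h.1 0 0
  rw [mul_zero, mul_zero] at this
  exact this

lemma ff_mem (n : ℕ) : ff n ∈ CC n := by
  refine ⟨fun x y => ?_, fun x => ?_⟩
  · show 4 * (x * y) = 4 * x * y
    rw [mul_assoc]
  · show red n (4 * x) = red n x
    rw [map_mul]
    have : red n 4 = 1 := by
      rw [map_ofNat]
      decide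
    rw [this, one_mul]

lemma cR1 (n : ℕ) (c : Fn n) (hc : c ∈ CC n) (h : (ee n)⁻¹ * c * ee n ∈ CC n) : c = 1 := by
  have h0 := CC_zero h
  rw [Equiv.Perm.mul_apply, Equiv.Perm.mul_apply] at h0
  have h1 : ee n 0 = 1 := zero_add 1
  rw [h1, Equiv.Perm.inv_eq_iff_eq, h1] at h0
  ext x
  rw [Equiv.Perm.one_apply, ← one_mul x, hc.1, h0]

lemma cR2 (n : ℕ) (c : Fn n) (hc : c ∈ CC n) : ee n * c * ee n ∉ CC n := by
  intro h
  have h0 := CC_zero h
  rw [Equiv.Perm.mul_apply, Equiv.Perm.mul_apply] at h0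
  have h1 : ee n 0 = 1 := zero_add 1
  rw [h1] at h0
  have h2 : c 1 + 1 = 0 := h0
  have h3 := congrArg (red n) h2
  rw [map_add, hc.2, map_one, map_zero] at h3
  exact absurd h3 (by decide)

lemma ff_pow (n k : ℕ) (x : ZMod (md n)) : (ff n ^ k) x = 4 ^ k * x := by
  induction k with
  | zero => simp
  | succ k ih =>
    rw [pow_succ', Equiv.Perm.mul_apply, ih]
    show 4 * (4 ^ k * x) = _
    rw [← mul_assoc, ← pow_succ']

lemma cR3 (k : ℕ) (hk : 1 ≤ k) : ∀ᶠ n in atTop, ff n ^ k ≠ 1 := by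
  filter_upwards [eventually_ge_atTop k] with n hn h
  have h1 := ff_pow n k 1
  rw [h, Equiv.Perm.one_apply, mul_one] at h1
  have h2 : ((4 ^ k : ℕ) : ZMod (md n)) = ((1 : ℕ) : ZMod (md n)) := by
    rw [Nat.cast_pow, Nat.cast_one]; exact_mod_cast h1.symm
  rw [ZMod.natCast_eq_natCast_iff] at h2
  have h3 := (Nat.modEq_iff_dvd' (Nat.one_le_pow k 4 (by norm_num))).mp h2.symm
  have h4 : 4 ≤ 4 ^ k := by
    calc 4 = 4 ^ 1 := by norm_num
      _ ≤ 4 ^ k := Nat.pow_le_pow_right (by norm_num) hk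
  have h5 : 4 ^ k < 4 ^ (n + 1) := Nat.pow_lt_pow_right (by norm_num) (by omega)
  have h6 := Nat.le_of_dvd (by omega) h3
  have h7 := md_add_one n
  omega

/-- The group: the restricted direct product of the `Perm (ZMod (4 ^ (n+1) - 1))`. -/
abbrev GG : Type := FinSupp Fn

lemma ee_ne_one (n : ℕ) : ee n ≠ 1 := by
  intro h
  have := cR2 n 1 (one_mem _)
  rw [h, mul_one, mul_one] at this
  exact this (one_mem _)

lemma GG_infinite : Infinite GG := by
  refine Infinite.of_injective (fun n : ℕ => (yy ff ee n : FinSupp Fn)) ?_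
  have key : ∀ a b : ℕ, a < b → (yy ff ee a : FinSupp Fn) ≠ yy ff ee b := by
    intro a b hab h
    have h1 : (1 * yy ff ee a : FinSupp Fn).1 b = 1 := by rw [mul_yy_gt _ hab]; rfl
    have h2 : (1 * yy ff ee b : FinSupp Fn).1 b = ee b := by rw [mul_yy_eq]; exact one_mul _
    rw [h, h2] at h1
    exact ee_ne_one b h1
  intro a b h
  rcases lt_trichotomy a b with h' | h' | h'
  · exact absurd h (key a b h')
  · exact h'
  · exact absurd h.symm (key b a h')

lemma GG_countable : Countable GG := by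
  rw [← Set.countable_univ_iff]
  have : (Set.univ : Set GG) = ⋃ N : ℕ, {g : FinSupp Fn | ∀ i, N ≤ i → g.1 i = 1} := by
    symm
    rw [Set.eq_univ_iff_forall]
    intro g
    obtain ⟨N, hN⟩ := g.2
    exact Set.mem_iUnion.mpr ⟨N, hN⟩
  rw [this]
  exact Set.countable_iUnion fun N => (finite_small N).countable

lemma GG_FC : IsFC GG := by
  intro g
  obtain ⟨N, hN⟩ := g.2
  refine (finite_small N).subset ?_
  intro h hh i hi
  obtain ⟨c, hc⟩ := isConj_iff.mp hh
  rw [← hc]
  show c.1 i * g.1 i * (c.1 i)⁻¹ = 1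
  rw [hN i hi, mul_one, mul_inv_cancel]

/-- The point of `βG` forming a one-element DTC set. -/
noncomputable def vv : Ultrafilter GG := (hyperfilter ℕ).map (yy ff ee)

lemma vv_spec (u : Ultrafilter GG) (hu : ∀ x, u ≠ pure x) : box u vv ≠ diamond u vv := by
  intro hbd
  refine key (f := ff) (e := ee) (q := hyperfilter ℕ) (u := u) ?_
    Nat.hyperfilter_le_atTop hu CC ff_mem cR1 cR2 cR3
  intro P hP
  have h1 : {g | P g} ∈ box u vv := by
    show {x : GG | (fun a => x⁻¹ * a) '' {g | P g} ∈ vv} ∈ u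
    filter_upwards [hP] with x hx
    rw [Set.image_mul_left, inv_inv]
    exact hx
  rw [hbd] at h1
  have h2 : {x : GG | (fun a => a * x⁻¹) '' {g | P g} ∈ u} ∈ vv := h1
  have h3 : ∀ᶠ n in (hyperfilter ℕ : Filter ℕ),
      (fun a => a * (yy ff ee n : FinSupp Fn)⁻¹) '' {g | P g} ∈ u := h2
  filter_upwards [h3] with n hn
  rw [Set.image_mul_right, inv_inv] at hn
  exact hn

end Concrete

/-- There is a countably infinite FC group which is DTC(1), hence not DTC(2): the negative answer
to both Q1 and Q2. -/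
theorem result : ∃ (G : Type) (_ : Group G), Countable G ∧ Infinite G ∧ IsFC G ∧
    (∃ v : Ultrafilter G, ∀ u : Ultrafilter G, (∀ x : G, u ≠ pure x) → box u v ≠ diamond u v) ∧
    IsDTC G 1 ∧ ¬ IsDTC G 2 := by
  have hD : IsDTC GG 1 := by
    refine ⟨⟨{vv}, fun u hu => ⟨vv, rfl, vv_spec u hu⟩, Cardinal.mk_singleton _⟩, ?_⟩
    rintro c ⟨D, hD, rfl⟩
    rw [Cardinal.one_le_iff_ne_zero]
    intro h0
    rw [Cardinal.mk_eq_zero_iff] at h0
    have := GG_infinite
    obtain ⟨v, hv, _⟩ := hD (hyperfilter GG) (fun x hx => by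
      have h1 : ({x} : Set GG) ∈ (pure x : Ultrafilter GG) := by simp
      rw [← hx] at h1
      exact (Set.finite_singleton x).notMem_hyperfilter h1)
    exact h0.elim ⟨v, hv⟩
  refine ⟨GG, inferInstance, GG_countable, GG_infinite, GG_FC, ⟨vv, vv_spec⟩, hD, fun h2 => ?_⟩
  have := hD.unique h2
  exact absurd this (by norm_num)

end Pool.Agent.Results.MP_1a7a11_al.FCNotTwo
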